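import Pool.Agent.PFC.StmtsB4b

/-!
# Squad PFC, row QCA (block B4b): cancellation of the group algebra
-/

set_option autoImplicit false

open scoped BigOperators TensorProduct

noncomputable section

namespace Pool.Agent.PFC.H48

/-- augmentation -/
def ep (F V : Type) [Field F] [CommGroup V] : MonoidAlgebra F V →ₐ[F] F :=
  MonoidAlgebra.lift F F V 1

theorem ep_of {F V : Type} [Field F] [CommGroup V] (v : V) :
    ep F V (MonoidAlgebra.of F V v) = 1 := by
  unfold ep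
  rw [MonoidAlgebra.lift_of]
  rfl

theorem scal {ℓ : ℕ} [Fact ℓ.Prime] {F : Type} [Field F] [CharP F ℓ] {n k : ℕ} (hn : 0 < n)
    (x : Matrix (Fin n) (Fin n) F) (hx : ∀ y, x * y = y * x) (h : x ^ (ℓ ^ k) = 1) : x = 1 := by
  obtain ⟨c, hc⟩ : x ∈ Set.range (Matrix.scalar (Fin n)) :=
    Matrix.mem_range_scalar_of_commute_single fun i j _ => (hx _).symm
  have h1 : Matrix.scalar (Fin n) (c ^ (ℓ ^ k)) = 1 := by
    rw [map_pow, hc, h]
  have h2 : c ^ (ℓ ^ k) = 1 := by
    have h3 := congrFun (congrFun h1 ⟨0, hn⟩) ⟨0, hn⟩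
    rwa [Matrix.scalar_apply, Matrix.diagonal_apply_eq, Matrix.one_apply_eq] at h3
  have h3 : (c - 1) ^ (ℓ ^ k) = 0 := by
    rw [sub_pow_char_pow, one_pow, h2, sub_self]
  have h4 : c = 1 := sub_eq_zero.1 (pow_eq_zero_iff (pow_ne_zero _ (Fact.out : ℓ.Prime).ne_zero) |>.1 h3)
  rw [← hc, h4, map_one]

theorem core (ℓ : ℕ) [Fact ℓ.Prime] (F V A A' : Type) [Field F] [CharP F ℓ] [CommGroup V]
    [Finite V] [Ring A] [Algebra F A] [FiniteDimensional F A] [Ring A'] [Algebra F A']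
    [FiniteDimensional F A'] (hV : IsPGroup ℓ V) (ι : V →* A) (ι' : V →* A') (n : ℕ) (hn : 0 < n)
    (f : A' ≃ₐ[F] Matrix (Fin n) (Fin n) F)
    (e : A ⊗[F] MonoidAlgebra F V ≃ₐ[F] A' ⊗[F] MonoidAlgebra F V)
    (he : ∀ v, e (ι v ⊗ₜ[F] MonoidAlgebra.of F V v) = ι' v ⊗ₜ[F] MonoidAlgebra.of F V v) :
    ∃ e' : A ≃ₐ[F] A', ∀ v, e' (ι v) = ι' v := by
  obtain ⟨p, hp⟩ : ∃ p : A' ⊗[F] MonoidAlgebra F V →ₐ[F] A',
      ∀ a x, p (a ⊗ₜ[F] x) = ep F V x • a :=
    ⟨(Algebra.TensorProduct.rid F F A').toAlgHom.comp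
      (Algebra.TensorProduct.map (AlgHom.id F A') (ep F V)), fun a x => by
        show Algebra.TensorProduct.rid F F A' ((AlgHom.id F A') a ⊗ₜ[F] ep F V x) = _
        rw [Algebra.TensorProduct.rid_tmul]
        rfl⟩
  have hps : Function.Surjective p := fun a => ⟨a ⊗ₜ[F] 1, by rw [hp, map_one, one_smul]⟩
  obtain ⟨g, hg⟩ : ∃ g : A ⊗[F] MonoidAlgebra F V →ₐ[F] A', ∀ t, g t = p (e t) :=
    ⟨p.comp e.toAlgHom, fun t => rfl⟩
  have hgs : Function.Surjective g := fun a => by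
    obtain ⟨t, ht⟩ := hps a
    obtain ⟨t', ht'⟩ := e.surjective t
    exact ⟨t', by rw [hg, ht', ht]⟩
  have hcen : ∀ (v : V) (t : A ⊗[F] MonoidAlgebra F V),
      (1 ⊗ₜ[F] MonoidAlgebra.of F V v) * t = t * (1 ⊗ₜ[F] MonoidAlgebra.of F V v) := by
    intro v t
    induction t using TensorProduct.induction_on with
    | zero => rw [mul_zero, zero_mul]
    | tmul a x =>
      rw [Algebra.TensorProduct.tmul_mul_tmul, Algebra.TensorProduct.tmul_mul_tmul, one_mul,
        mul_one, mul_comm]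
    | add x y hx hy => rw [mul_add, add_mul, hx, hy]
  have hu : ∀ v : V, g (1 ⊗ₜ[F] MonoidAlgebra.of F V v) = 1 := by
    intro v
    obtain ⟨k, hk⟩ := hV v
    have h1 : g (1 ⊗ₜ[F] MonoidAlgebra.of F V v) ^ (ℓ ^ k) = 1 := by
      rw [← map_pow, Algebra.TensorProduct.tmul_pow, one_pow, ← map_pow, hk, map_one]
      exact map_one g
    have h2 : f (g (1 ⊗ₜ[F] MonoidAlgebra.of F V v)) = 1 := by
      apply scal (ℓ := ℓ) (k := k) hn
      · intro y
        obtain ⟨t, ht⟩ := hgs (f.symm y)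
        have h3 := congrArg f (congrArg g (hcen v t))
        rw [map_mul g, map_mul g, map_mul f, map_mul f, ht, f.apply_symm_apply] at h3
        exact h3
      · rw [← map_pow, h1, map_one]
    apply f.injective
    rw [h2, map_one]
  obtain ⟨g', hg'⟩ : ∃ g' : A →ₐ[F] A', ∀ a, g' a = g (a ⊗ₜ[F] 1) :=
    ⟨g.comp Algebra.TensorProduct.includeLeft, fun a => rfl⟩
  have hgo : ∀ (a : A) (v : V), g (a ⊗ₜ[F] MonoidAlgebra.of F V v) = g' a := by
    intro a v
    have h1 : a ⊗ₜ[F] MonoidAlgebra.of F V v =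
        (a ⊗ₜ[F] 1) * (1 ⊗ₜ[F] MonoidAlgebra.of F V v) := by
      rw [Algebra.TensorProduct.tmul_mul_tmul, mul_one, one_mul]
    rw [h1, map_mul, hu, mul_one, hg']
  have hga : ∀ (a : A) (x : MonoidAlgebra F V), g (a ⊗ₜ[F] x) = ep F V x • g' a := by
    intro a x
    induction x using MonoidAlgebra.induction_on with
    | of v => rw [hgo, ep_of, one_smul]
    | add x y hx hy => rw [TensorProduct.tmul_add, map_add, hx, hy, map_add, add_smul]
    | smul r x hx => rw [TensorProduct.tmul_smul, map_smul, hx, map_smul, smul_assoc]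
  have hs' : Function.Surjective g' := by
    intro y
    obtain ⟨t, ht⟩ := hgs y
    rw [← ht]
    clear ht
    induction t using TensorProduct.induction_on with
    | zero => exact ⟨0, by rw [map_zero, map_zero]⟩
    | tmul a x => exact ⟨ep F V x • a, by rw [map_smul, hga]⟩
    | add x y hx hy =>
      obtain ⟨a, ha⟩ := hx
      obtain ⟨b, hb⟩ := hy
      exact ⟨a + b, by rw [map_add, map_add, ha, hb]⟩
  have : Fintype V := Fintype.ofFinite V
  have hd : Module.finrank F A = Module.finrank F A' := by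
    have h1 := e.toLinearEquiv.finrank_eq
    rw [Module.finrank_tensorProduct, Module.finrank_tensorProduct] at h1
    exact Nat.eq_of_mul_eq_mul_right Module.finrank_pos h1
  have hi : Function.Injective g' :=
    (LinearMap.injective_iff_surjective_of_finrank_eq_finrank (f := g'.toLinearMap) hd).2 hs'
  refine ⟨AlgEquiv.ofBijective g' ⟨hi, hs'⟩, fun v => ?_⟩
  show g' (ι v) = ι' v
  rw [← hgo (ι v) v, hg, he, hp, ep_of, one_smul]

theorem qca : QcaStmt := by
  intro ℓ _ F V _ _ _ _ S S' hV hM hI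
  obtain ⟨n, hn, ⟨f⟩⟩ := hM
  obtain ⟨e, he⟩ := hI
  exact core ℓ F V S.A S'.A hV S.ι S'.ι n hn f e he

end Pool.Agent.PFC.H48
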