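import Pool.Agent.PFC.StmtsB5a

/-!
# Squad PFC, row UNS (block B5a): from a Casimir element to separability
-/

set_option autoImplicit false

open scoped BigOperators TensorProduct

noncomputable section

namespace Pool.Agent.PFC.B5a.H48

theorem mem_Cz {F V B : Type} [Field F] [CommGroup V] [Ring B] [Algebra F B] {δ : V →* B}
    {a : B} : a ∈ Cz F δ ⊤ ↔ ∀ g, δ g * a = a * δ g := by
  unfold Cz
  rw [Subalgebra.mem_centralizer_iff]
  constructor
  · intro h g
    exact h _ ⟨g, Subgroup.mem_top g, rfl⟩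
  · rintro h _ ⟨g, -, rfl⟩
    exact h g

theorem uns : UnsStmt := by
  intro bki F Γ V B _ _ _ _ _ _ γ δ κ _ u v c' d hC hw hcd hdc hcδ hloc h1
  obtain ⟨z, hz⟩ : ∃ z : B, z = ∑ k, u k * v k := ⟨_, rfl⟩
  rw [← hz] at hw
  have hzc : ∀ c : B, c * z = z * c := by
    intro c
    have h := hC B (LinearMap.mul F B) (fun a b g => by
      show a * γ g * b = a * (γ g * b)
      exact mul_assoc _ _ _) c
    have h2 : ∑ k, (c * u k) * v k = ∑ k, u k * (v k * c) := h
    rw [hz, Finset.mul_sum, Finset.sum_mul]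
    calc ∑ k, c * (u k * v k) = ∑ k, (c * u k) * v k :=
          Finset.sum_congr rfl fun k _ => (mul_assoc _ _ _).symm
      _ = ∑ k, u k * (v k * c) := h2
      _ = ∑ k, u k * v k * c := Finset.sum_congr rfl fun k _ => (mul_assoc _ _ _).symm
  obtain ⟨-, hBC, hid⟩ := bki F V B δ ⊤
  have hc'm : c' ∈ Cz F δ ⊤ := mem_Cz.2 fun g => (hcδ g).symm
  have hdm : d ∈ Cz F δ ⊤ := mem_Cz.2 fun g => by
    calc δ g * d = (d * c') * δ g * d := by rw [hdc, one_mul]
      _ = d * (c' * δ g) * d := by rw [mul_assoc d c']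
      _ = d * (δ g * c') * d := by rw [hcδ]
      _ = d * δ g * (c' * d) := by simp only [mul_assoc]
      _ = d * δ g := by rw [hcd, mul_one]
  have hzm : z ∈ Cz F δ ⊤ := mem_Cz.2 fun g => hzc _
  have hsum : (⟨z, hzm⟩ * ⟨d, hdm⟩ + -((⟨z, hzm⟩ - ⟨c', hc'm⟩) * ⟨d, hdm⟩) : Cz F δ ⊤) = 1 := by
    apply Subtype.ext
    show z * d + -((z - c') * d) = 1
    rw [sub_mul, hcd]
    abel
  obtain ⟨z', hz1⟩ : ∃ z' : B, z * z' = 1 := by
    rcases IsLocalRing.isUnit_or_isUnit_of_add_one hsum with hu | hu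
    · obtain ⟨y, hy⟩ := hu.exists_right_inv
      have h := congrArg Subtype.val hy
      have h2 : z * d * (y : B) = 1 := h
      exact ⟨d * y, by rw [← mul_assoc]; exact h2⟩
    · exfalso
      obtain ⟨y, hy⟩ := hu.exists_right_inv
      have h := congrArg Subtype.val hy
      have h2 : -((z - c') * d) * (y : B) = 1 := h
      apply h1
      have h3 : (z - c') * (-(d * (y : B))) = 1 := by
        rw [← h2]
        simp only [mul_neg, neg_mul, mul_assoc]
      rw [← h3]
      refine (hid _ ?_ _ hw).2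
      exact Subalgebra.neg_mem _ (Subalgebra.mul_mem _ hdm y.2)
  have hz2 : z' * z = 1 := by rw [hzc, hz1]
  have hz'c : ∀ c : B, c * z' = z' * c := by
    intro c
    calc c * z' = (z' * z) * c * z' := by rw [hz2, one_mul]
      _ = z' * (z * c) * z' := by rw [mul_assoc z' z]
      _ = z' * (c * z) * z' := by rw [hzc]
      _ = z' * c * (z * z') := by simp only [mul_assoc]
      _ = z' * c := by rw [hz1, mul_one]
  refine ⟨κ, inferInstance, u, fun k => v k * z', ?_, ?_⟩
  · calc ∑ k, u k * (v k * z') = ∑ k, u k * v k * z' :=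
          Finset.sum_congr rfl fun k _ => (mul_assoc _ _ _).symm
      _ = z * z' := by rw [hz, Finset.sum_mul]
      _ = 1 := hz1
  · intro X _ _ T hT c
    have h := hC X (T.compl₂ (LinearMap.mulRight F z')) (fun a b g => by
      show T (a * γ g) (b * z') = T a (γ g * b * z')
      rw [hT, mul_assoc]) c
    have h2 : ∑ k, T (c * u k) (v k * z') = ∑ k, T (u k) (v k * c * z') := h
    rw [h2]
    refine Finset.sum_congr rfl fun k _ => ?_
    rw [mul_assoc, mul_assoc, hz'c]

end Pool.Agent.PFC.B5a.H48
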