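import Pool.Agent.PFC.StmtsB2

/-!
# Squad PFC, row QFI (part B2): finiteness and freeness of `Co` and `QQ`
-/

set_option autoImplicit false

noncomputable section

namespace Pool.Agent.PFC.B2.H48

open Pool.Agent.PFC.B1

theorem fin_of {R A k T : Type} [CommRing R] [Ring A] [Algebra R A] [Module.Finite R A]
    [CommRing k] [IsNoetherianRing k] [Algebra R k] [AddCommGroup T] [Module k T]
    [Module.Finite k T] (W : Submodule k (A → T)) (h1 : ∀ f ∈ W, ∀ x y, f (x + y) = f x + f y)
    (h2 : ∀ f ∈ W, ∀ (r : R) (x : A), f (r • x) = algebraMap R k r • f x) :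
    Module.Finite k W := by
  obtain ⟨n, s, hs⟩ := Module.Finite.exists_fin (R := R) (M := A)
  have hN : IsNoetherian k (Fin n → T) := inferInstance
  obtain ⟨φ, hφ⟩ : ∃ φ : W →ₗ[k] (Fin n → T), ∀ f i, φ f i = f.1 (s i) :=
    ⟨{ toFun := fun f i => f.1 (s i)
       map_add' := fun f g => rfl
       map_smul' := fun c f => rfl }, fun f i => rfl⟩
  refine Module.Finite.of_injective φ ?_
  rw [← LinearMap.ker_eq_bot, LinearMap.ker_eq_bot']
  intro f hf
  apply Subtype.ext
  funext x
  show f.1 x = 0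
  have hx : x ∈ Submodule.span R (Set.range s) := by rw [hs]; exact Submodule.mem_top
  induction hx using Submodule.span_induction with
  | mem x hx =>
    obtain ⟨i, rfl⟩ := hx
    rw [← hφ, hf]
    rfl
  | zero =>
    have h := h1 f.1 f.2 0 0
    rw [add_zero] at h
    exact left_eq_add.mp h
  | add x y _ _ hx hy => rw [h1 f.1 f.2, hx, hy, add_zero]
  | smul r x _ hx => rw [h2 f.1 f.2, hx, smul_zero]

theorem qfi : QfiStmt := by
  refine ⟨?_, ?_, ?_⟩
  · intro R Γ A k S _ _ _ _ _ _ _ _ _ _ _ _ j σ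
    refine fin_of (R := R) (Co j σ) (fun f hf => hf.1) (fun f hf r x => ?_)
    have h := hf.2 (algebraMap R Γ r) x
    rw [j.commutes, ← Algebra.smul_def] at h
    rw [h]
    exact σ.sc r _
  · intro R Γ A k T _ _ _ _ _ _ _ _ _ _ _ _ j τ
    refine fin_of (R := R) (QQ j τ) (fun f hf => hf.1) (fun f hf r x => ?_)
    have h := hf.2.1 (algebraMap R Γ r) x
    rw [j.commutes, ← Algebra.smul_def] at h
    rw [h]
    exact τ.sc r _
  · intro F Γ A T _ _ _ _ _ _ _ _ _ _ j τ
    have hfin : Module.Finite (PowerSeries F) (QQ j τ) := by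
      refine fin_of (R := PowerSeries F) (QQ j τ) (fun f hf => hf.1) (fun f hf r x => ?_)
      have h := hf.2.1 (algebraMap (PowerSeries F) Γ r) x
      rw [j.commutes, ← Algebra.smul_def] at h
      rw [h]
      exact τ.sc r _
    exact Module.free_of_finite_type_torsion_free'

end Pool.Agent.PFC.B2.H48
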